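import Pool.Agent.H476R2.PL.Trig

/-!
# SJ/PK (helper951): trigonometric polynomials near a maximum
-/

set_option autoImplicit false

namespace Pool.Agent.N951.SJ

open Finset Real Pool.Agent.H476R2.PL

theorem T_shift {m : ℕ} {f : ℝ → ℝ} (hf : f ∈ T m) (t : ℝ) : (fun θ => f (t + θ)) ∈ T m := by
  induction hf using Submodule.span_induction with
  | mem f hf =>
    obtain ⟨j, hj, rfl | rfl⟩ := hf
    · have h1 := (T m).smul_mem (cos (j * t)) (cos_mem hj)
      have h2 := (T m).smul_mem (sin (j * t)) (sin_mem hj)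
      have h3 := (T m).sub_mem h1 h2
      convert h3 using 1
      funext θ
      simp only [Pi.sub_apply, Pi.smul_apply, smul_eq_mul]
      rw [mul_add, cos_add]
    · have h1 := (T m).smul_mem (sin (j * t)) (cos_mem hj)
      have h2 := (T m).smul_mem (cos (j * t)) (sin_mem hj)
      have h3 := (T m).add_mem h1 h2
      convert h3 using 1
      funext θ
      simp only [Pi.add_apply, Pi.smul_apply, smul_eq_mul]
      rw [mul_add, sin_add]
  | zero => exact (T m).zero_mem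
  | add f g _ _ hf hg => exact (T m).add_mem hf hg
  | smul c f _ hf => exact (T m).smul_mem c hf

theorem b_le {m k : ℕ} (hk : 0 < k) (hk2 : k < 2 * m) :
    b m k ≤ (m : ℝ) ^ 2 / 2 * (((k : ℝ) ^ 2)⁻¹ + (((2 * m - k : ℕ) : ℝ) ^ 2)⁻¹) := by
  have hm : (0 : ℝ) < m := by
    have : 0 < m := by omega
    exact_mod_cast this
  have hk0 : (0 : ℝ) < k := by exact_mod_cast hk
  have hk3 : (0 : ℝ) < ((2 * m - k : ℕ) : ℝ) := by
    have : 0 < 2 * m - k := by omega
    exact_mod_cast this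
  -- the main inequality
  have key : ∀ l : ℕ, 0 < l → l ≤ m → 1 / (2 * sin (l * (π / (2 * m))) ^ 2) ≤
      (m : ℝ) ^ 2 / 2 * ((l : ℝ) ^ 2)⁻¹ := by
    intro l hl hlm
    have hl0 : (0 : ℝ) < l := by exact_mod_cast hl
    have hlm' : (l : ℝ) ≤ m := by exact_mod_cast hlm
    have h1 : 2 / π * (l * (π / (2 * m))) ≤ sin (l * (π / (2 * m))) := by
      apply mul_le_sin (by positivity)
      have : (l : ℝ) * (π / (2 * m)) = (l / m) * (π / 2) := by ring
      rw [this]
      have h3 : (l : ℝ) / m ≤ 1 := by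
        rw [div_le_one hm]
        exact hlm'
      nlinarith [pi_pos]
    have h2 : 2 / π * (l * (π / (2 * m))) = (l : ℝ) / m := by
      field_simp
    rw [h2] at h1
    have h4 : (0 : ℝ) < (l : ℝ) / m := by positivity
    have h5 : ((l : ℝ) / m) ^ 2 ≤ sin (l * (π / (2 * m))) ^ 2 := pow_le_pow_left₀ h4.le h1 2
    calc 1 / (2 * sin (l * (π / (2 * m))) ^ 2) ≤ 1 / (2 * ((l : ℝ) / m) ^ 2) := by
          apply one_div_le_one_div_of_le (by positivity)
          linarith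
      _ = _ := by field_simp
  rcases le_or_gt k m with h | h
  · refine (key k hk h).trans ?_
    apply mul_le_mul_of_nonneg_left _ (by positivity)
    have : (0 : ℝ) ≤ (((2 * m - k : ℕ) : ℝ) ^ 2)⁻¹ := by positivity
    linarith
  · have h1 := key (2 * m - k) (by omega) (by omega)
    have h2 : b m k = 1 / (2 * sin (((2 * m - k : ℕ) : ℝ) * (π / (2 * m))) ^ 2) := by
      unfold b
      rw [Nat.cast_sub hk2.le]
      push_cast
      have : (2 * (m : ℝ) - k) * (π / (2 * m)) = π - k * (π / (2 * m)) := by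
        field_simp
      rw [this, sin_pi_sub]
    rw [h2]
    refine h1.trans ?_
    apply mul_le_mul_of_nonneg_left _ (by positivity)
    have : (0 : ℝ) ≤ ((k : ℝ) ^ 2)⁻¹ := by positivity
    linarith

theorem sum_b (m : ℕ) : ∑ k ∈ Ico 1 (2 * m), b m k ≤ 2 * (m : ℝ) ^ 2 := by
  have h1 : ∑ k ∈ Ico 1 (2 * m), ((k : ℝ) ^ 2)⁻¹ ≤ 2 := by
    have := sum_Ioo_inv_sq_le (α := ℝ) 0 (2 * m)
    have e : Ioo 0 (2 * m) = Ico 1 (2 * m) := by
      ext x
      rw [mem_Ioo, mem_Ico]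
      omega
    rw [e] at this
    simpa using this
  have h2 : ∑ k ∈ Ico 1 (2 * m), ((((2 * m - k : ℕ) : ℝ)) ^ 2)⁻¹ =
      ∑ k ∈ Ico 1 (2 * m), ((k : ℝ) ^ 2)⁻¹ := by
    refine sum_bij' (fun k _ => 2 * m - k) (fun k _ => 2 * m - k)
      (fun k hk => by rw [mem_Ico] at hk ⊢; omega)
      (fun k hk => by rw [mem_Ico] at hk ⊢; omega)
      (fun k hk => by rw [mem_Ico] at hk; omega)
      (fun k hk => by rw [mem_Ico] at hk; omega) (fun k _ => rfl)
  calc ∑ k ∈ Ico 1 (2 * m), b m k ≤ ∑ k ∈ Ico 1 (2 * m),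
        (m : ℝ) ^ 2 / 2 * (((k : ℝ) ^ 2)⁻¹ + (((2 * m - k : ℕ) : ℝ) ^ 2)⁻¹) := by
        apply sum_le_sum
        intro k hk
        rw [mem_Ico] at hk
        exact b_le (by omega) hk.2
    _ = (m : ℝ) ^ 2 / 2 * (∑ k ∈ Ico 1 (2 * m), ((k : ℝ) ^ 2)⁻¹ +
        ∑ k ∈ Ico 1 (2 * m), ((((2 * m - k : ℕ) : ℝ)) ^ 2)⁻¹) := by
        rw [← mul_sum, sum_add_distrib]
    _ ≤ (m : ℝ) ^ 2 / 2 * (2 + 2) := by
        rw [h2]
        apply mul_le_mul_of_nonneg_left _ (by positivity)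
        linarith
    _ = _ := by ring

theorem second {m : ℕ} (hm : 0 < m) {f : ℝ → ℝ} (hf : f ∈ T m) (hU : ∀ θ, |f θ| ≤ 1) :
    ∃ f1 f2 : ℝ → ℝ, (∀ θ, HasDerivAt f (f1 θ) θ) ∧ (∀ θ, HasDerivAt f1 (f2 θ) θ) ∧
      ∀ θ, |f2 θ| ≤ 4 * (m : ℝ) ^ 2 := by
  obtain ⟨f1, hf1, -⟩ := quad hm hf
  have hb : ∀ k ∈ Ico 1 (2 * m), 0 < b m k := by
    intro k hk
    rw [mem_Ico] at hk
    exact b_pos (by omega) hk.2
  have hS : |S m 0| ≤ 2 * (m : ℝ) ^ 2 := by
    refine le_trans ?_ (sum_b m)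
    unfold S
    refine (abs_sum_le_sum_abs _ _).trans (sum_le_sum fun k hk => ?_)
    rw [abs_mul, abs_mul, abs_pow, abs_neg, abs_one, one_pow, one_mul, abs_of_pos (hb k hk)]
    exact mul_le_of_le_one_right (hb k hk).le (abs_cos_le_one _)
  refine ⟨f1, fun θ => -S m 0 * f θ + ∑ k ∈ Ico 1 (2 * m), (-1 : ℝ) ^ (k + 1) * b m k *
        f (θ + k * (π / m)), hf1, fun θ => ?_, fun θ => ?_⟩
  · obtain ⟨g1, hg1, hg2⟩ := quad hm (T_shift hf θ)
    have e : g1 = fun t => f1 (θ + t) := by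
      funext t
      apply (hg1 t).unique
      have h1 := hf1 (θ + t)
      have h2 : HasDerivAt (fun t : ℝ => θ + t) 1 t := by
        simpa using (hasDerivAt_id t).const_add θ
      have h3 : HasDerivAt (fun t => f (θ + t)) (f1 (θ + t) * 1) t := HasDerivAt.comp t h1 h2
      rwa [mul_one] at h3
    rw [e] at hg2
    have h2 : HasDerivAt (fun t : ℝ => t - θ) 1 θ := by
      simpa using (hasDerivAt_id θ).sub_const θ
    have hg2' : HasDerivAt (fun t => f1 (θ + t)) (-S m 0 * f (θ + 0) +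
        ∑ k ∈ Ico 1 (2 * m), (-1 : ℝ) ^ (k + 1) * b m k * f (θ + k * (π / m))) (θ - θ) := by
      rw [sub_self]
      exact hg2
    have h3 := HasDerivAt.comp (h₂ := fun t => f1 (θ + t)) (h := fun t => t - θ) θ hg2' h2
    have e3 : ((fun t => f1 (θ + t)) ∘ fun t => t - θ) = f1 := by
      funext t
      simp
    rw [e3, mul_one, add_zero] at h3
    exact h3
  · calc |-S m 0 * f θ + ∑ k ∈ Ico 1 (2 * m), (-1 : ℝ) ^ (k + 1) * b m k *
        f (θ + k * (π / m))| ≤ |-S m 0 * f θ| + |∑ k ∈ Ico 1 (2 * m), (-1 : ℝ) ^ (k + 1) * b m k *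
        f (θ + k * (π / m))| := abs_add_le _ _
      _ ≤ 2 * (m : ℝ) ^ 2 + ∑ k ∈ Ico 1 (2 * m), b m k := by
          apply add_le_add
          · rw [abs_mul, abs_neg]
            calc |S m 0| * |f θ| ≤ |S m 0| * 1 :=
                  mul_le_mul_of_nonneg_left (hU θ) (abs_nonneg _)
              _ ≤ _ := by rw [mul_one]; exact hS
          · refine (abs_sum_le_sum_abs _ _).trans (sum_le_sum fun k hk => ?_)
            rw [abs_mul, abs_mul, abs_pow, abs_neg, abs_one, one_pow, one_mul,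
              abs_of_pos (hb k hk)]
            exact mul_le_of_le_one_right (hb k hk).le (hU _)
      _ ≤ 2 * (m : ℝ) ^ 2 + 2 * (m : ℝ) ^ 2 := by
          have := sum_b m
          linarith
      _ = _ := by ring

theorem near {m : ℕ} (hm : 0 < m) {f : ℝ → ℝ} (hf : f ∈ T m) (hU : ∀ θ, |f θ| ≤ 1)
    (h0 : f 0 = 1) (s : ℝ) : 1 - 4 * (m : ℝ) ^ 2 * s ^ 2 ≤ f s := by
  obtain ⟨f1, f2, h1, h2, h3⟩ := second hm hf hU
  have h10 : f1 0 = 0 := by
    have hmax : IsLocalMax f 0 := by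
      apply Filter.Eventually.of_forall
      intro θ
      rw [h0]
      exact (le_abs_self _).trans (hU θ)
    exact hmax.hasDerivAt_eq_zero (h1 0)
  have h4 : ∀ θ, |f1 θ| ≤ 4 * (m : ℝ) ^ 2 * |θ| := by
    intro θ
    have := Convex.norm_image_sub_le_of_norm_hasDerivWithin_le (f := f1) (f' := f2)
      (C := 4 * (m : ℝ) ^ 2) (s := Set.univ) (x := 0) (y := θ)
      (fun x _ => (h2 x).hasDerivWithinAt) (fun x _ => by rw [Real.norm_eq_abs]; exact h3 x)
      convex_univ (Set.mem_univ _) (Set.mem_univ _)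
    rw [h10, sub_zero, sub_zero, Real.norm_eq_abs, Real.norm_eq_abs] at this
    exact this
  have h5 := Convex.norm_image_sub_le_of_norm_hasDerivWithin_le (f := f) (f' := f1)
    (C := 4 * (m : ℝ) ^ 2 * |s|) (s := Set.uIcc 0 s) (x := 0) (y := s)
    (fun x _ => (h1 x).hasDerivWithinAt) (fun x hx => by
      rw [Real.norm_eq_abs]
      refine (h4 x).trans ?_
      apply mul_le_mul_of_nonneg_left _ (by positivity)
      have := Set.abs_sub_left_of_mem_uIcc hx
      simpa using this)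
    (convex_uIcc _ _) Set.left_mem_uIcc Set.right_mem_uIcc
  rw [h0, sub_zero, Real.norm_eq_abs, Real.norm_eq_abs, mul_assoc, abs_mul_abs_self] at h5
  have h6 := (abs_le.1 h5).1
  nlinarith

end Pool.Agent.N951.SJ
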