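import Pool.Agent.N303.SJ.Stm
import Pool.Agent.N951.SJ.Trg

/-!
# SJ/PK (helper951): localising zonal polynomials
-/

set_option autoImplicit false

open MeasureTheory Metric Set
open scoped ENNReal RealInnerProductSpace NNReal

namespace Pool.Agent.N951.SJ

open Pool.Agent.N303.SH Pool.Agent.N303.SJ

section circle

variable {n : ℕ}

theorem pow_T (α β : ℝ) (i : ℕ) :
    (fun θ : ℝ => (α * Real.cos θ + β * Real.sin θ) ^ i) ∈ Pool.Agent.H476R2.PL.T i := by
  induction i with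
  | zero =>
    have := Pool.Agent.H476R2.PL.cos_mem (j := 0) (m := 0) le_rfl
    convert this using 1
    funext θ
    simp
  | succ i ih =>
    have h1 := (Pool.Agent.H476R2.PL.T (i + 1)).smul_mem α (Pool.Agent.H476R2.PL.mul_cos_mem ih)
    have h2 := (Pool.Agent.H476R2.PL.T (i + 1)).smul_mem β (Pool.Agent.H476R2.PL.mul_sin_mem ih)
    have h3 := (Pool.Agent.H476R2.PL.T (i + 1)).add_mem h1 h2
    convert h3 using 1
    funext θ
    simp only [Pi.add_apply, Pi.smul_apply, smul_eq_mul]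
    ring

/-- a great circle -/
noncomputable def gc (x : S n) (v : E n) (h1 : ‖v‖ = 1) (h2 : ⟪(x : E n), v⟫ = 0) (θ : ℝ) : S n :=
  ⟨Real.cos θ • (x : E n) + Real.sin θ • v, by
    rw [mem_sphere_zero_iff_norm]
    have h3 : ‖Real.cos θ • (x : E n) + Real.sin θ • v‖ ^ 2 = 1 := by
      rw [@norm_add_sq_real, norm_smul, norm_smul, real_inner_smul_left, real_inner_smul_right, h2,
        h1, S_norm]
      simp only [Real.norm_eq_abs, mul_one, mul_zero, add_zero, sq_abs]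
      exact Real.cos_sq_add_sin_sq θ
    have h4 : 0 ≤ ‖Real.cos θ • (x : E n) + Real.sin θ • v‖ := norm_nonneg _
    nlinarith⟩

theorem comp_T {m : ℕ} {g : C(S n, ℝ)} (hg : g ∈ Pool.Agent.N303.SH.P n m) (x : S n) (v : E n)
    (h1 : ‖v‖ = 1) (h2 : ⟪(x : E n), v⟫ = 0) :
    (fun θ => g (gc x v h1 h2 θ)) ∈ Pool.Agent.H476R2.PL.T m := by
  let L : C(S n, ℝ) →ₗ[ℝ] (ℝ → ℝ) :=
    { toFun := fun g θ => g (gc x v h1 h2 θ)
      map_add' := fun f g => rfl
      map_smul' := fun c g => rfl }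
  have key : Pool.Agent.N303.SH.P n m ≤ (Pool.Agent.H476R2.PL.T m).comap L := by
    apply P_le_R
    intro i hi a
    rw [Submodule.mem_comap]
    apply Pool.Agent.H476R2.PL.T_mono hi
    have := pow_T ⟪a, (x : E n)⟫ ⟪a, v⟫ i
    convert this using 1
    funext θ
    change (lin a ^ i) (gc x v h1 h2 θ) = _
    rw [ContinuousMap.pow_apply, lin_apply]
    unfold gc
    simp only
    rw [inner_add_right, real_inner_smul_right, real_inner_smul_right]
    ring
  exact key hg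

end circle

section main

variable {c : ℕ}

theorem Zs_symm (m : ℕ) (x y : S (c + 2)) : Zs m x y = Zs m y x := by
  rw [Zs_apply, Zs_apply]
  exact Finset.sum_congr rfl fun a _ => mul_comm _ _

theorem Zs_abs (m : ℕ) (x y : S (c + 2)) : |Zs m x y| ≤ zs (c + 2) m x := by
  have h1 : Zs m x y ^ 2 ≤ zs (c + 2) m x ^ 2 := by
    rw [Zs_apply]
    refine (Finset.sum_mul_sq_le_sq_mul_sq _ _ _).trans (le_of_eq ?_)
    rw [sum_sq_ee, sum_sq_ee, zs_const m y x, sq]
  exact abs_le_of_sq_le_sq h1 (zs_pos m x).le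

/-- the polynomials -/
noncomputable def pp (m : ℕ) (z : ℝ) (x : S (c + 2)) : C(S (c + 2), ℝ) := z⁻¹ • Zs m x

theorem near_diag {m : ℕ} (hm : 0 < m) (x y : S (c + 2))
    (h : ‖(x : E (c + 2)) - y‖ ≤ 1 / 8 / m) : 1 / 2 ≤ Zs m x y / zs (c + 2) m x := by
  have hz := zs_pos m x
  have hm' : (1 : ℝ) ≤ m := by exact_mod_cast hm
  by_cases hxy : (x : E (c + 2)) = y
  · have : x = y := Subtype.ext hxy
    subst this
    rw [Zs_self, div_self hz.ne']
    norm_num
  set t : ℝ := ⟪(x : E (c + 2)), (y : E (c + 2))⟫ with ht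
  have hu : ‖(x : E (c + 2)) - y‖ ^ 2 = 2 - 2 * t := by
    rw [@norm_sub_sq_real, S_norm, S_norm, ← ht]
    ring
  have hu0 : 0 < ‖(x : E (c + 2)) - y‖ := norm_pos_iff.2 (sub_ne_zero.2 hxy)
  have hu1 : ‖(x : E (c + 2)) - y‖ ≤ 1 / 8 := by
    refine h.trans ?_
    rw [div_le_iff₀ (by linarith)]
    linarith
  have ht1 : t < 1 := by nlinarith
  have ht2 : -1 < t := by nlinarith
  set s : ℝ := Real.arccos t with hs
  have hcos : Real.cos s = t := Real.cos_arccos ht2.le ht1.le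
  have hs0 : 0 ≤ s := Real.arccos_nonneg t
  have hsπ : s ≤ Real.pi := Real.arccos_le_pi t
  have hsin2 : Real.sin s ^ 2 = 1 - t ^ 2 := by
    rw [Real.sin_sq, hcos]
  have hsin : 0 < Real.sin s := by
    have h1 : 0 ≤ Real.sin s := Real.sin_nonneg_of_nonneg_of_le_pi hs0 hsπ
    have h2 : 0 < Real.sin s ^ 2 := by rw [hsin2]; nlinarith
    exact (sq_pos_iff.1 h2).lt_of_le' h1
  set v : E (c + 2) := (Real.sin s)⁻¹ • ((y : E (c + 2)) - t • (x : E (c + 2))) with hv
  have hw : ‖(y : E (c + 2)) - t • (x : E (c + 2))‖ ^ 2 = Real.sin s ^ 2 := by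
    rw [@norm_sub_sq_real, norm_smul, real_inner_smul_right, S_norm, S_norm, real_inner_comm,
      ← ht, hsin2, Real.norm_eq_abs, mul_one, sq_abs]
    ring
  have hw' : ‖(y : E (c + 2)) - t • (x : E (c + 2))‖ = Real.sin s := by
    have h1 := norm_nonneg ((y : E (c + 2)) - t • (x : E (c + 2)))
    exact (pow_left_inj₀ h1 hsin.le two_ne_zero).1 hw
  have hv1 : ‖v‖ = 1 := by
    rw [hv, norm_smul, hw', Real.norm_eq_abs, abs_of_pos (inv_pos.2 hsin),
      inv_mul_cancel₀ hsin.ne']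
  have hv2 : ⟪(x : E (c + 2)), v⟫ = 0 := by
    rw [hv, real_inner_smul_right, inner_sub_right, real_inner_smul_right,
      real_inner_self_eq_norm_sq, S_norm, ← ht]
    ring
  have hgc0 : gc x v hv1 hv2 0 = x := by
    apply Subtype.ext
    unfold gc
    simp
  have hgcs : gc x v hv1 hv2 s = y := by
    apply Subtype.ext
    unfold gc
    simp only
    rw [hv, smul_smul, mul_inv_cancel₀ hsin.ne', one_smul, hcos]
    abel
  have hf : (fun θ => (pp m (zs (c + 2) m x) x) (gc x v hv1 hv2 θ)) ∈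
      Pool.Agent.H476R2.PL.T m :=
    comp_T ((Pool.Agent.N303.SH.P (c + 2) m).smul_mem _ (Zs_mem m x)) x v hv1 hv2
  have happ : ∀ y', (pp m (zs (c + 2) m x) x) y' = Zs m x y' / zs (c + 2) m x := by
    intro y'
    unfold pp
    rw [ContinuousMap.smul_apply, smul_eq_mul, div_eq_inv_mul]
  have hk := near hm hf (fun θ => by
    rw [happ, abs_div, abs_of_pos hz, div_le_one hz]
    exact Zs_abs m x _) (by rw [hgc0, happ, Zs_self, div_self hz.ne']) s
  simp only [hgcs, happ] at hk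
  refine le_trans ?_ hk
  have h1 := Real.cos_le_one_sub_mul_cos_sq (x := s) (by rw [abs_of_nonneg hs0]; exact hsπ)
  rw [hcos] at h1
  have hπ : Real.pi ≤ 4 := Real.pi_le_four
  have h2 : 4 / Real.pi ^ 2 * s ^ 2 ≤ ‖(x : E (c + 2)) - y‖ ^ 2 := by
    rw [hu]
    have : 4 / Real.pi ^ 2 * s ^ 2 = 2 * (2 / Real.pi ^ 2 * s ^ 2) := by ring
    linarith
  have h3 : (1 : ℝ) / 4 ≤ 4 / Real.pi ^ 2 := by
    rw [div_le_div_iff₀ (by norm_num) (by positivity)]
    nlinarith [Real.pi_pos]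
  have h4 : 1 / 4 * s ^ 2 ≤ ‖(x : E (c + 2)) - y‖ ^ 2 :=
    (mul_le_mul_of_nonneg_right h3 (sq_nonneg s)).trans h2
  have h5 : ‖(x : E (c + 2)) - y‖ * m ≤ 1 / 8 := by
    rw [le_div_iff₀ (by linarith)] at h
    exact h
  have h6 : (‖(x : E (c + 2)) - y‖ * m) ^ 2 ≤ (1 / 8) ^ 2 :=
    pow_le_pow_left₀ (by positivity) h5 2
  have h7 : (m : ℝ) ^ 2 * (1 / 4 * s ^ 2) ≤ (m : ℝ) ^ 2 * ‖(x : E (c + 2)) - y‖ ^ 2 :=
    mul_le_mul_of_nonneg_left h4 (by positivity)
  rw [mul_pow] at h6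
  nlinarith

theorem t_pk : Pool.Agent.N303.SJ.S_PK := by
  intro c
  have hV := V_pos c
  refine ⟨(sg (c + 2)).real univ * ((c : ℝ) + 1) ^ (c + 1), 1 / 8, by positivity, by norm_num,
    fun m hm => ?_⟩
  let x0 : S (c + 2) := ⟨EuclideanSpace.single 0 1, by simp⟩
  set z := zs (c + 2) m x0 with hz
  have hzx : ∀ x, zs (c + 2) m x = z := fun x => zs_const m x x0
  have hz0 : 0 < z := zs_pos m x0
  have happ : ∀ x y : S (c + 2), (pp m z x) y = z⁻¹ * Zs m x y := fun x y => rfl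
  refine ⟨pp m z, fun x => (Pool.Agent.N303.SH.P (c + 2) m).smul_mem _ (Zs_mem m x), ?_, ?_, ?_, ?_⟩
  · intro x y
    rw [happ, happ, Zs_symm]
  · simp only [happ, Zs_apply]
    fun_prop
  · intro x
    have h1 : ∫ y, (pp m z x) y ^ 2 ∂(sg (c + 2)) = z⁻¹ := by
      have h2 : ∀ y, (pp m z x) y ^ 2 = z⁻¹ ^ 2 * (Zs m x y * Zs m x y) := by
        intro y
        rw [happ]
        ring
      simp only [h2]
      rw [integral_const_mul]
      have h3 : ∫ y, Zs m x y * Zs m x y ∂(sg (c + 2)) = z := by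
        have := ip_Zs_self m x
        rw [hzx] at this
        exact this
      rw [h3, sq, mul_assoc, inv_mul_cancel₀ hz0.ne', mul_one]
    rw [h1]
    have h2 : (((m : ℝ) + 1) / ((c : ℝ) + 1)) ^ (c + 1) ≤ z * (sg (c + 2)).real univ := by
      rw [hz, zs_mul]
      have h3 := le_finrank (d := c + 1) (by omega) m
      have h4 : ((((m / (c + 1) + 1 : ℕ) : ℝ)) ^ (c + 1)) ≤
          Module.finrank ℝ (Pool.Agent.N303.SH.P (c + 2) m) := by
        exact_mod_cast h3
      refine le_trans (pow_le_pow_left₀ (by positivity) ?_ _) h4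
      rw [div_le_iff₀ (by positivity)]
      have h5 : m + 1 ≤ (m / (c + 1) + 1) * (c + 1) := by
        have := Nat.lt_div_mul_add (a := m) (b := c + 1) (by omega)
        nlinarith
      exact_mod_cast h5
    have hm0 : (0 : ℝ) < m := by exact_mod_cast hm
    have h6 : (m : ℝ) ^ (-((c : ℝ) + 1)) = ((m : ℝ) ^ (c + 1))⁻¹ := by
      rw [Real.rpow_neg hm0.le]
      congr 1
      have : (c : ℝ) + 1 = ((c + 1 : ℕ) : ℝ) := by push_cast; ring
      rw [this, Real.rpow_natCast]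
    rw [h6, ← div_eq_mul_inv, inv_le_iff_one_le_mul₀ hz0, div_mul_eq_mul_div,
      le_div_iff₀ (by positivity), one_mul]
    rw [div_pow, div_le_iff₀ (by positivity)] at h2
    have h7 : (m : ℝ) ^ (c + 1) ≤ ((m : ℝ) + 1) ^ (c + 1) :=
      pow_le_pow_left₀ hm0.le (by linarith) _
    calc (m : ℝ) ^ (c + 1) ≤ _ := h7
      _ ≤ _ := h2
      _ = _ := by ring
  · intro x y h
    have h1 := near_diag (m := m) hm x y h
    rw [hzx, div_eq_inv_mul (Zs m x y) z] at h1
    rw [happ]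
    exact h1.trans (le_abs_self _)

end main

end Pool.Agent.N951.SJ
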